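import Mathlib
import Pool.Agent.H221.TV.Main
import Pool.Graph.R_seed8.TH998.Tor.Analytic

/-!
# Vanishing order of Laplace eigenfunctions on the torus: `λ^(1 - 1/d + ε)` in every dimension

In every dimension `d ≥ 2` and for every `ε > 0` a nonzero Laplace eigenfunction on `ℝ^d/ℤ^d` with
eigenvalue `4π²n` vanishes at every point to order at most `C n^((1 - 1/d)/2 + ε)`.

Proof.  A nonzero eigenfunction vanishing to order `k` gives nonzero weights `a` on a set `T` of
integer points of the sphere `|x|² = n` which annihilate all polynomials of degree `< k`.  For a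
prime `p` with `2 d (p - 1) < k` the polynomials `∏ (1 - (x_i - s_i)^(p-1))` separate the residue
classes modulo `p`, and their products are annihilated, so (totally isotropic subspaces) at least
half of the points of `T` have a partner, i.e. another point of `T` congruent to them modulo `p`.
If this holds for all primes `p ∈ (X/8, X]`, then some point `x` has partners `x + p v_p` for half
of these primes; `|v_p| ≤ C √n / X` and `p |v_p|² = - 2 x · v_p`, so that `|v_p|²` divides
`2 x · v_p`, and, the first `d - 1` coordinates of `v_p` being given, `|v_p|²` divides a nonzero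
integer which does not depend on the last coordinate.  By the divisor bound there are at most
`(C √n / X)^(d-1) n^ε` primes of this kind.
-/

set_option autoImplicit false

namespace Pool.Agent.Results.MP_d565f2_an.NearSharpAllDims

open Pool.Agent.TH998.Tor

/-- The frequencies on the sphere `|ξ|² = n` in `ℤ^d`. -/
def Sph (d n : ℕ) : Set (Fin d → ℤ) := {ξ : Fin d → ℤ | ∑ i, ξ i ^ 2 = (n : ℤ)}

/-- The Laplace eigenfunction on the torus `ℝ^d/ℤ^d` with eigenvalue `4π²n` and Fourier
coefficients `c`. -/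
noncomputable def Eig (d n : ℕ) (c : (Fin d → ℤ) → ℂ) : (Fin d → ℝ) → ℂ := fun x =>
  ∑ᶠ ξ ∈ Sph d n, c ξ * Complex.exp (2 * (Real.pi : ℂ) * Complex.I *
    ∑ i, ((ξ i : ℝ) : ℂ) * ((x i : ℝ) : ℂ))

lemma sph_finite (d n : ℕ) : (Sph d n).Finite := by
  refine (Set.finite_Icc (fun _ : Fin d => -(n : ℤ)) (fun _ => (n : ℤ))).subset ?_
  intro ξ hξ
  have h : ∑ i, ξ i ^ 2 = (n : ℤ) := hξ
  have h1 : ∀ i, |ξ i| ≤ n := by
    intro i
    have h3 : (ξ i) ^ 2 ≤ ∑ j, ξ j ^ 2 :=
      Finset.single_le_sum (f := fun j => ξ j ^ 2) (fun j _ => sq_nonneg _) (Finset.mem_univ i)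
    rw [h] at h3
    have h4 : |ξ i| ≤ ξ i ^ 2 := by
      rw [← sq_abs (ξ i)]
      rcases (abs_nonneg (ξ i)).eq_or_lt with h0 | h0
      · rw [← h0]; norm_num
      · nlinarith
    linarith
  exact ⟨fun i => (abs_le.mp (h1 i)).1, fun i => (abs_le.mp (h1 i)).2⟩

/-- In every dimension `d ≥ 2` and for every `ε > 0` a nonzero Laplace eigenfunction on the torus
with eigenvalue `4π²n` vanishes at every point to order at most `C n^((1 - 1/d)/2 + ε)`. -/
theorem result : ∀ d : ℕ, 2 ≤ d → ∀ ε : ℝ, 0 < ε → ∃ C : ℝ, 0 < C ∧ ∀ n : ℕ, 1 ≤ n → ∀ k : ℕ,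
    (∃ c : (Fin d → ℤ) → ℂ, ∃ p : Fin d → ℝ, Eig d n c ≠ 0 ∧
      ∀ j : ℕ, j < k → iteratedFDeriv ℝ j (Eig d n c) p = 0) →
    (k : ℝ) ≤ C * (n : ℝ) ^ ((1 - 1 / (d : ℝ)) / 2 + ε) := by
  intro d hd ε hε
  obtain ⟨C, hC, H⟩ := Pool.Agent.H221.TV.sphere_inj d hd ε hε
  refine ⟨C + 1, by positivity, ?_⟩
  intro n hn k ⟨c, p, hne, hvan⟩
  have hU : Eig d n c = U (sph_finite d n).toFinset c := by
    funext x
    unfold Eig U
    rw [finsum_mem_eq_finite_toFinset_sum _ (sph_finite d n)]
  rw [hU] at hne hvan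
  set E : ℝ := (n : ℝ) ^ ((1 - 1 / (d : ℝ)) / 2 + ε) with hE
  have hd0 : (0 : ℝ) < d := by
    have : 0 < d := by omega
    exact_mod_cast this
  have hE1 : 1 ≤ E := by
    refine Real.one_le_rpow (by exact_mod_cast hn) ?_
    have h5 : (1 : ℝ) / (d : ℝ) ≤ 1 := by
      rw [div_le_one hd0]
      have : 1 ≤ d := by omega
      exact_mod_cast this
    linarith
  have hinj := H n hn (sph_finite d n).toFinset (fun x hx => by
    rw [Set.Finite.mem_toFinset] at hx
    exact hx) ⌈C * E⌉₊ (Nat.le_ceil _)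
  have hk := order_le hne hvan hinj
  have hk' : (k : ℝ) ≤ (⌈C * E⌉₊ : ℝ) := by exact_mod_cast hk
  have h1 := (Nat.ceil_lt_add_one (show 0 ≤ C * E by positivity)).le
  calc (k : ℝ) ≤ C * E + 1 := hk'.trans h1
    _ ≤ C * E + E := by linarith
    _ = (C + 1) * E := by ring

end Pool.Agent.Results.MP_d565f2_an.NearSharpAllDims
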